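import Pool.Agent.Lib_RF.Formula

/-!
# The residual finiteness growth of a nilpotent group

Let `G` be a nontrivial finitely generated torsion-free nilpotent group with rational Mal'cev Lie
algebra `𝔤`, and let `k` be the least integer such that the ideals of codimension at most `k` of
the complex Lie algebra `ℂ ⊗ 𝔤` have zero intersection.  Then `RF_G` is `(log n) ^ k` up to
constants.  So `RF_G` only depends on the complex Mal'cev completion of `G` (Q1).
The definitions of `rfGrowth`, `GrowthEquiv`, `IsMalcevLieAlgebra` are in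
`Pool/Agent/Lib_RF/Defs.lean`.

Idea of the proof.
* Upper bound: the separating ideals are defined over a number field, and can be reduced modulo
  the primes which have a prime of degree one above them in that field.  By a Chebyshev type
  estimate there are enough such primes.  Reduction modulo `p` of the Mal'cev coordinates turns an
  ideal of codimension at most `k` over `ZMod p` into a normal subgroup of index at most `p ^ k`.
* Lower bound: if the ideals of codimension less than `k` have nonzero intersection over `ℂ` then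
  this intersection has a nonzero rational point `z`, and by an ultraproduct argument `z` lies in
  every ideal of index `p ^ e`, `e < k`, of the integral Lie ring, for all large primes `p`.  By the
  Lazard correspondence the same holds for normal subgroups, and the powers
  `z ^ (lcm (1, ..., m) ^ (2 * k))` are hard to detect.
-/

namespace Pool.Agent.Results.MP_67ef3c_al.ExactRFGrowth

open Pool.Agent.Lib_RF TensorProduct

universe u₁ u₂ v₁ v₂

/-- The ideals of codimension at most `k` of the complex Lie algebra `L` have zero intersection: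
every nonzero `x` lies outside some ideal of codimension at most `k`. -/
def IdealsSeparate (L : Type*) [LieRing L] [LieAlgebra ℂ L] (k : ℕ) : Prop :=
  ∀ x : L, x ≠ 0 → ∃ I : LieIdeal ℂ L, x ∉ I ∧ Module.finrank ℂ (L ⧸ I.toSubmodule) ≤ k

/-- The exact order of the residual finiteness growth of every finitely generated (torsion-free)
nilpotent group, and its dependence on the complex Mal'cev completion only. -/
theorem result :
    (∀ (G : Type u₁) [Group G] [Group.IsNilpotent G] [Nontrivial G] (S : Set G), S.Finite →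
      Subgroup.closure S = ⊤ → ∀ (𝔤 : Type v₁) [LieRing 𝔤] [LieAlgebra ℚ 𝔤],
      IsMalcevLieAlgebra G 𝔤 →
      ∃ k : ℕ, 0 < k ∧ IsLeast {j | IdealsSeparate (ℂ ⊗[ℚ] 𝔤) j} k ∧
        ∃ c C : ℝ, 0 < c ∧ 0 < C ∧ ∀ n : ℕ, 2 ≤ n →
          c * Real.log n ^ k ≤ rfGrowth S n ∧ rfGrowth S n ≤ C * Real.log n ^ k) ∧
    ∀ (G₁ : Type u₁) [Group G₁] [Group.IsNilpotent G₁]
      (G₂ : Type u₂) [Group G₂] [Group.IsNilpotent G₂]
      (S₁ : Set G₁) (S₂ : Set G₂), S₁.Finite → Subgroup.closure S₁ = ⊤ → S₂.Finite →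
      Subgroup.closure S₂ = ⊤ → ∀ (𝔤₁ : Type v₁) [LieRing 𝔤₁] [LieAlgebra ℚ 𝔤₁]
      (𝔤₂ : Type v₂) [LieRing 𝔤₂] [LieAlgebra ℚ 𝔤₂],
      IsMalcevLieAlgebra G₁ 𝔤₁ → IsMalcevLieAlgebra G₂ 𝔤₂ →
      Nonempty ((ℂ ⊗[ℚ] 𝔤₁) ≃ₗ⁅ℂ⁆ (ℂ ⊗[ℚ] 𝔤₂)) →
      GrowthEquiv (rfGrowth S₁) (rfGrowth S₂) := by
  refine ⟨?_, ?_⟩
  · intro G _ _ _ S hS hgen 𝔤 _ _ h
    exact rfGrowth_formula hS hgen h
  · intro G₁ _ _ G₂ _ _ S₁ S₂ hS₁ hG₁ hS₂ hG₂ 𝔤₁ _ _ 𝔤₂ _ _ h₁ h₂ h
    exact growthEquiv_of_complexIso hS₁ hG₁ hS₂ hG₂ h₁ h₂ h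

end Pool.Agent.Results.MP_67ef3c_al.ExactRFGrowth
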